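import Pool.Agent.Lib.MP_b07157_ag.SX.Main

/-!
# The local strong monodromy conjecture for polynomials with affinely independent exponents

`f` is any nonzero polynomial in `n` variables, `n` arbitrary, with `f(0) = 0`, whose exponents are
affinely independent. There is no condition on the nonzero coefficients of `f`, on its Newton
polyhedron or on its singularities. Then each pole of the local motivic zeta function of `f` at the
origin is a root of the local Bernstein–Sato polynomial of `f`.
-/

namespace Pool.Agent.Results.MP_b07157_ag.AffineSupportLocal

open MPb07157 MvPolynomial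

theorem result {n : ℕ} (f : MvPolynomial (Fin n) ℂ) (hf : f ≠ 0) (h0 : coeff 0 f = 0)
    (haff : AffineIndependent ℚ
      (fun v : {v // v ∈ f.support} => fun j : Fin n => ((v.1 j : ℕ) : ℚ)))
    (s₀ : ℚ) (hs₀ : IsPole (Zmot0 f) s₀) : IsLocalBernsteinSatoRoot f s₀ :=
  SX.smc_affine_local hf (by rwa [notMem_support_iff]) (SX.AI.of_affineIndependent haff) s₀ hs₀

end Pool.Agent.Results.MP_b07157_ag.AffineSupportLocal
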