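import Pool.Agent.Lib.MP_b07157_ag.PS.Main

/-!
# The strong monodromy conjecture for very general polynomials in any number of variables

`f` is any nonzero polynomial in `n` variables, `n` arbitrary, with `f(0) = 0`, whose nonzero
coefficients are algebraically independent over `ℚ` (this holds for the very general polynomial
with a given set of exponents). There is no condition on the Newton polyhedron of `f`, and no
condition on the singularities of `f`. Then each pole of the motivic zeta function of `f` is a root
of its Bernstein–Sato polynomial.
-/

namespace Pool.Agent.Lib.MP_b07157_ag.Retired.AllVariablesGlobal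

open MPb07157 MvPolynomial

theorem result {n : ℕ} (f : MvPolynomial (Fin n) ℂ) (hf : f ≠ 0) (h0 : coeff 0 f = 0)
    (halg : AlgebraicIndependent ℚ (fun v : {v // v ∈ f.support} => coeff v.1 f))
    (s₀ : ℚ) (hs₀ : IsPole (Zmot f) s₀) : IsBernsteinSatoRoot f s₀ :=
  smc_global hf (by rwa [notMem_support_iff]) halg s₀ hs₀

end Pool.Agent.Lib.MP_b07157_ag.Retired.AllVariablesGlobal
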