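import Pool.Agent.Lib.MP_b07157_ag.GN.LocNC

/-!
# The strong monodromy conjecture for generic polynomials (local version)

`g` is a polynomial in `n` variables with `g(0) = 0`; only its set of exponents matters. For each
noncompact facet of its Newton polyhedron (given by its weight `w`, with some `w_j = 0`, and the
minimum `N > 0` of `w` on the exponents), apart from those with `|w| = N`, one of the following
holds:

* no exponent `v` of the facet has a coordinate `v_j = 1` with `w_j > 0`;
* the facet is compactly thick: one of its compact faces contains a set `ρ` of exponents whose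
  projections to the coordinates `j` with `w_j > 0` form a basis, such that `∑_{v ∈ ρ} v_j ≥ 2` for
  all `j` with `w_j > 0`.

There is no condition on the compact facets; so the result applies to all convenient polynomials.
Then there is a nonempty Zariski open set, defined over `ℚ`, in the space of the polynomials with
the same exponents as `g`, such that for each `f` in it each pole of the local motivic zeta function
of `f` at the origin is a root of its local Bernstein–Sato polynomial.
-/

namespace Pool.Agent.Lib.MP_b07157_ag.Retired.GenericLocal

open MPb07157 MvPolynomial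

theorem result {n : ℕ} (g : MvPolynomial (Fin n) ℂ) (hg : g ≠ 0) (h0 : coeff 0 g = 0)
    (hfacets : ∀ (w : Fin n → ℕ) (N : ℕ), IsFacetWt g w N → (∃ j, w j = 0) → ∑ j, w j ≠ N →
      (∀ v ∈ face g w N, ∀ j, 0 < w j → v j ≠ 1) ∨ ThickC g w N) :
    ∃ Δ : MvPolynomial {v : Fin n →₀ ℕ // v ∈ g.support} ℚ, Δ ≠ 0 ∧
      ∀ f : MvPolynomial (Fin n) ℂ, f.support = g.support →
        aeval (fun v : {v : Fin n →₀ ℕ // v ∈ g.support} => coeff v.1 f) Δ ≠ 0 →
          ∀ s₀ : ℚ, IsPole (Zmot0 f) s₀ → IsLocalBernsteinSatoRoot f s₀ :=
  GN.smc_generic_local_nc g hg (by rwa [notMem_support_iff])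
    fun w N h1 h2 h3 => (hfacets w N h1 h2 h3).elim (thickC_of_ne_one h1) id

end Pool.Agent.Lib.MP_b07157_ag.Retired.GenericLocal
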