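import Pool.Agent.Lib.MP_b07157_ag.Main

/-!
# The strong monodromy conjecture for real hyperplane arrangements

`f = ∏_j (a_j·x + c_j)^{m_j}` on `ℂ^n`, with `a_j`, `c_j` real and pairwise distinct hyperplanes.
An edge is given by the set `F` of the hyperplanes through a point `p`; it is dense if the
arrangement `F` is indecomposable, its codimension is the rank of `F`.

If each dense edge `F` of the arrangement satisfies one of

* its codimension is at most `2`,
* its codimension is at most `4` and its hyperplanes have multiplicity one in `f`,
* some `i₀ ∈ F` is such that each `S ⊆ F` with `m(S)/rank S > m(F)/rank F` has `a_{i₀}` in its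
  span,

then each pole of the motivic zeta function of `f` is a root of its Bernstein–Sato polynomial.
In particular (the second alternative, as the codimension is at most `n`) this is so for all
reduced real arrangements in at most four variables, and for all reduced real arrangements in any
number of variables whose dense edges have codimension at most four.
-/

namespace Pool.Agent.Lib.MP_b07157_ag.Retired.RealArrangements

open MPb07157

theorem result {n : ℕ} {ι : Type} [Fintype ι] [DecidableEq ι] (a : ι → Fin n → ℝ) (c : ι → ℝ)
    (m : ι → ℕ) (ha : ∀ j, a j ≠ 0) (hm : ∀ j, 0 < m j)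
    (hne : ∀ j k, j ≠ k → ¬ ∃ t : ℝ, a k = t • a j ∧ c k = t * c j)
    (hgood : ∀ p : Fin n → ℝ, IsDense a (through a c p) →
      rk a (through a c p) ≤ 2 ∨
      (rk a (through a c p) ≤ 4 ∧ ∀ j ∈ through a c p, m j = 1) ∨
      ∃ i₀ ∈ through a c p, ∀ S ⊆ through a c p,
        a i₀ ∉ Submodule.span ℝ (a '' (S : Set ι)) →
        (∑ j ∈ S, m j) * rk a (through a c p) ≤ (∑ j ∈ through a c p, m j) * rk a S)
    (s₀ : ℚ) (hs₀ : IsPole (Zmot (arrPoly a c m)) s₀) :
    IsBernsteinSatoRoot (arrPoly a c m) s₀ :=
  strong_monodromy a c m ha hm hne hgood s₀ hs₀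

end Pool.Agent.Lib.MP_b07157_ag.Retired.RealArrangements
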