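import Pool.Agent.Lib.MP_b07157_ag.N3.Main3

/-!
# The strong monodromy conjecture for very general polynomials in three variables (local version)

`f` is any nonzero polynomial in three variables with `f(0) = 0`, whose nonzero coefficients are
algebraically independent over `ℚ` (this holds for the very general polynomial with a given set of
exponents). There is no condition on the Newton polyhedron of `f`, and no condition on the
singularities of `f`. Then each pole of the local motivic zeta function of `f` at the origin is a
root of its local Bernstein–Sato polynomial.
-/

namespace Pool.Agent.Lib.MP_b07157_ag.Retired.ThreeVariablesLocal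

open MPb07157 MvPolynomial

theorem result (f : MvPolynomial (Fin 3) ℂ) (hf : f ≠ 0) (h0 : coeff 0 f = 0)
    (halg : AlgebraicIndependent ℚ (fun v : {v // v ∈ f.support} => coeff v.1 f))
    (s₀ : ℚ) (hs₀ : IsPole (Zmot0 f) s₀) : IsLocalBernsteinSatoRoot f s₀ :=
  (smc_three hf (by rwa [notMem_support_iff]) halg s₀).2 hs₀

end Pool.Agent.Lib.MP_b07157_ag.Retired.ThreeVariablesLocal
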