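import Pool.Agent.Lib.MP_b07157_ag.NewtAllLoc

/-!
# The strong monodromy conjecture for very general polynomials (local version)

`f` is a polynomial in `n` variables with `f(0) = 0`, whose nonzero coefficients are algebraically
independent over `ℚ` (this holds for the very general polynomial with a given set of exponents).
For each facet of the Newton polyhedron of `f` (given by its weight `w` and the minimum `N > 0` of
`w` on the exponents), apart from those with `|w| = N`, one of the following holds:

* no exponent `v` of the facet has a coordinate `v_j = 1` with `w_j > 0`;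
* the facet is compactly thick: one of its compact faces contains a set `ρ` of exponents whose
  projections to the coordinates `j` with `w_j > 0` form a basis, such that `∑_{v ∈ ρ} v_j ≥ 2` for
  all `j` with `w_j > 0`.

Then each pole of the local motivic zeta function of `f` at the origin is a root of its local
Bernstein–Sato polynomial.
-/

namespace Pool.Agent.Lib.MP_b07157_ag.Retired.VeryGeneralLocal

open MPb07157 MvPolynomial

theorem result {n : ℕ} (f : MvPolynomial (Fin n) ℂ) (hf : f ≠ 0) (h0 : coeff 0 f = 0)
    (halg : AlgebraicIndependent ℚ (fun v : {v // v ∈ f.support} => coeff v.1 f))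
    (hfacets : ∀ (w : Fin n → ℕ) (N : ℕ), IsFacetWt f w N → ∑ j, w j ≠ N →
      (∀ v ∈ face f w N, ∀ j, 0 < w j → v j ≠ 1) ∨ ThickC f w N)
    (s₀ : ℚ) (hs₀ : IsPole (Zmot0 f) s₀) : IsLocalBernsteinSatoRoot f s₀ :=
  (smc_thickC hf (by rwa [notMem_support_iff]) halg
    (fun w N h1 h2 => (hfacets w N h1 h2).elim (thickC_of_ne_one h1) id) s₀).2 hs₀

end Pool.Agent.Lib.MP_b07157_ag.Retired.VeryGeneralLocal
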